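import Mathlib
import Pool.Agent.TH10.RP.JC

/-! # Okada's theorem with complex coefficients (adapted from `Pool.Agent.TH10.RP.cot_indep`) -/

set_option autoImplicit false

namespace Pool.Agent.T9h85.SR

open Finset Complex HurwitzZeta ZMod Polynomial

open Pool.Agent.TH10.RP.JC Pool.Agent.H916R2 in
/-- Okada: linear independence of the cotangent values over `ℂ`, all conjugates together. -/
theorem cot_indep' (d : ℕ) (hd : 3 ≤ d) (b : ℕ → ℂ)
    (h : ∀ ζ : ℂ, IsPrimitiveRoot ζ d → ∑ μ ∈ (range d).filter (fun μ => μ.Coprime d ∧ 2 * μ < d),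
      b μ * ((ζ ^ μ + 1) / (ζ ^ μ - 1)) = 0) :
    ∀ μ ∈ (range d).filter (fun μ => μ.Coprime d ∧ 2 * μ < d), b μ = 0 := by
  classical
  have hd0 : 0 < d := by omega
  have : NeZero d := ⟨hd0.ne'⟩
  set S := (range d).filter (fun μ => μ.Coprime d ∧ 2 * μ < d) with hS
  have hdC : (d : ℂ) ≠ 0 := Nat.cast_ne_zero.mpr hd0.ne'
  -- the relation as a sum
  have hrel : ∀ ζ : ℂ, IsPrimitiveRoot ζ d →
      ∑ μ ∈ S, b μ * ∑ j ∈ range d, (saw (j : ZMod d) : ℂ) * (ζ ^ μ) ^ j = 0 := by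
    intro ζ hζ
    have : ∑ μ ∈ S, b μ * ∑ j ∈ range d, (saw (j : ZMod d) : ℂ) * (ζ ^ μ) ^ j =
        d * ∑ μ ∈ S, b μ * ((ζ ^ μ + 1) / (ζ ^ μ - 1)) := by
      rw [mul_sum]
      refine sum_congr rfl fun μ hμ => ?_
      rw [hS, mem_filter, mem_range] at hμ
      rw [saw_sum d hd0 (ζ ^ μ)]
      · ring
      · rw [← pow_mul, mul_comm, pow_mul, hζ.pow_eq_one, one_pow]
      · intro h1
        have h2 := hζ.dvd_of_pow_eq_one μ h1
        have h3 : μ = 0 := Nat.eq_zero_of_dvd_of_lt h2 hμ.1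
        rw [h3] at hμ
        have := hμ.2.1
        rw [Nat.coprime_zero_left] at this
        omega
    rw [this, h ζ hζ, mul_zero]
  -- for the standard characters
  have hstd : ∀ k : (ZMod d)ˣ, ∑ μ ∈ S, b μ *
      ∑ j : ZMod d, (saw j : ℂ) * ZMod.stdAddChar (-((k : ZMod d) * ((μ : ZMod d) * j))) = 0 := by
    intro k
    set ζ' : ℂ := ZMod.stdAddChar (-(k : ZMod d)) with hζ'
    have hpow : ∀ n : ℕ, ζ' ^ n = ZMod.stdAddChar (-((k : ZMod d) * (n : ZMod d))) := by
      intro n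
      rw [hζ', ← AddChar.map_nsmul_eq_pow]
      congr 1
      rw [nsmul_eq_mul]
      ring
    have hprim : IsPrimitiveRoot ζ' d := by
      rw [IsPrimitiveRoot.iff_def]
      constructor
      · rw [hpow]
        simp
      · intro l hl
        rw [hpow] at hl
        have h1 : -((k : ZMod d) * (l : ZMod d)) = 0 := by
          have := ZMod.injective_stdAddChar (N := d)
          apply this
          rw [hl, AddChar.map_zero_eq_one]
        rw [neg_eq_zero] at h1
        have h2 : (l : ZMod d) = 0 := by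
          have := congrArg (fun x => ((k⁻¹ : (ZMod d)ˣ) : ZMod d) * x) h1
          simpa [← mul_assoc] using this
        exact (ZMod.natCast_eq_zero_iff l d).mp h2
    have := hrel ζ' hprim
    rw [← this]
    refine sum_congr rfl fun μ _ => ?_
    congr 1
    have hj : ∀ j ∈ range d, (saw (j : ZMod d) : ℂ) * (ζ' ^ μ) ^ j =
        (fun x : ZMod d => (saw x : ℂ) *
          ZMod.stdAddChar (-((k : ZMod d) * ((μ : ZMod d) * x)))) (j : ZMod d) := by
      intro j _
      simp only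
      rw [← pow_mul, hpow]
      push_cast
      rfl
    rw [sum_congr rfl hj]
    exact (range_sum d (fun x : ZMod d => (saw x : ℂ) *
      ZMod.stdAddChar (-((k : ZMod d) * ((μ : ZMod d) * x))))).symm
  -- multiply by an odd character
  have hodd : ∀ ψ : DirichletCharacter ℂ d, ψ.Odd → ∑ μ ∈ S, b μ * ψ⁻¹ (μ : ZMod d) = 0 := by
    intro ψ hψ
    have h1 : (∑ μ ∈ S, b μ * ψ⁻¹ (μ : ZMod d)) *
        ∑ j : ZMod d, ZMod.dft (fun j => ψ j) j * (saw j : ℂ) = 0 := by
      have h2 : ∑ k : (ZMod d)ˣ, ψ (k : ZMod d) * ∑ μ ∈ S, b μ *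
          ∑ j : ZMod d, (saw j : ℂ) *
            ZMod.stdAddChar (-((k : ZMod d) * ((μ : ZMod d) * j))) = 0 := by
        apply sum_eq_zero
        intro k _
        rw [hstd k, mul_zero]
      rw [← h2, sum_mul]
      simp only [mul_sum]
      rw [sum_comm (s := (univ : Finset (ZMod d)ˣ))]
      refine sum_congr rfl fun μ hμ => ?_
      rw [sum_comm (s := (univ : Finset (ZMod d)ˣ))]
      refine sum_congr rfl fun j _ => ?_
      rw [hS, mem_filter, mem_range] at hμ
      set u : (ZMod d)ˣ := ZMod.unitOfCoprime μ hμ.2.1 with hu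
      have hu' : ((u : (ZMod d)ˣ) : ZMod d) = (μ : ZMod d) := by simp [hu]
      have h3 := dft_unit ψ u j
      rw [hu'] at h3
      have h4 : ZMod.dft (fun j => ψ j) ((μ : ZMod d) * j) =
          ∑ k : (ZMod d)ˣ, ψ (k : ZMod d) *
            ZMod.stdAddChar (-((k : ZMod d) * ((μ : ZMod d) * j))) := by
        rw [ZMod.dft_apply]
        have h5 : ∀ x : ZMod d, x ∉ Set.range (fun k : (ZMod d)ˣ => (k : ZMod d)) →
            ZMod.stdAddChar (-(x * ((μ : ZMod d) * j))) • ψ x = (0 : ℂ) := by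
          intro x hx
          have : ¬ IsUnit x := by
            rintro ⟨v, hv⟩
            exact hx ⟨v, hv⟩
          rw [ψ.map_nonunit this, smul_zero]
        rw [← Fintype.sum_of_injective (fun k : (ZMod d)ˣ => (k : ZMod d)) Units.val_injective
          (fun k => ψ (k : ZMod d) * ZMod.stdAddChar (-((k : ZMod d) * ((μ : ZMod d) * j))))
          _ h5]
        intro k
        rw [smul_eq_mul, mul_comm]
      calc b μ * ψ⁻¹ (μ : ZMod d) * (ZMod.dft (fun j => ψ j) j * (saw j : ℂ))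
          = b μ * (saw j : ℂ) * (ψ⁻¹ (μ : ZMod d) * ZMod.dft (fun j => ψ j) j) := by ring
        _ = b μ * (saw j : ℂ) * ZMod.dft (fun j => ψ j) ((μ : ZMod d) * j) := by rw [h3]
        _ = _ := by
          rw [h4, mul_sum]
          refine sum_congr rfl fun k _ => ?_
          ring
    exact (mul_eq_zero.mp h1).resolve_right (dft_saw_ne_zero ψ hψ)
  -- orthogonality
  have hall : ∀ χ : DirichletCharacter ℂ d, (1 - χ (-1)) * ∑ μ ∈ S, b μ * χ (μ : ZMod d) = 0 := by
    intro χ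
    rcases χ.even_or_odd with he | ho
    · rw [DirichletCharacter.Even] at he
      rw [he, sub_self, zero_mul]
    · have := hodd χ⁻¹ (by
        unfold DirichletCharacter.Odd at ho ⊢
        rw [MulChar.inv_apply_eq_inv', ho]
        norm_num)
      rw [inv_inv] at this
      rw [this, mul_zero]
  intro μ₀ hμ₀
  have hμ₀' := hμ₀
  rw [hS, mem_filter, mem_range] at hμ₀'
  have hunit : IsUnit (μ₀ : ZMod d) := (ZMod.isUnit_iff_coprime μ₀ d).mpr hμ₀'.2.1
  have hsum : ∑ χ : DirichletCharacter ℂ d, χ ((μ₀ : ZMod d)⁻¹) *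
      ((1 - χ (-1)) * ∑ μ ∈ S, b μ * χ (μ : ZMod d)) = 0 :=
    sum_eq_zero fun χ _ => by rw [hall χ, mul_zero]
  have hexp : ∑ χ : DirichletCharacter ℂ d, χ ((μ₀ : ZMod d)⁻¹) *
      ((1 - χ (-1)) * ∑ μ ∈ S, b μ * χ (μ : ZMod d)) =
      ∑ μ ∈ S, b μ * ((if (μ₀ : ZMod d) = μ then (d.totient : ℂ) else 0) -
        (if (μ₀ : ZMod d) = -μ then (d.totient : ℂ) else 0)) := by
    have h1 : ∀ μ : ℕ, (if (μ₀ : ZMod d) = μ then (d.totient : ℂ) else 0) =
        ∑ χ : DirichletCharacter ℂ d, χ ((μ₀ : ZMod d)⁻¹) * χ (μ : ZMod d) := fun μ =>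
      (DirichletCharacter.sum_char_inv_mul_char_eq ℂ hunit (μ : ZMod d)).symm
    have h2 : ∀ μ : ℕ, (if (μ₀ : ZMod d) = -(μ : ZMod d) then (d.totient : ℂ) else 0) =
        ∑ χ : DirichletCharacter ℂ d, χ ((μ₀ : ZMod d)⁻¹) * χ (-(μ : ZMod d)) := fun μ =>
      (DirichletCharacter.sum_char_inv_mul_char_eq ℂ hunit (-(μ : ZMod d))).symm
    simp only [h1, h2]
    simp only [mul_sum, ← sum_sub_distrib]
    rw [sum_comm]
    refine sum_congr rfl fun μ _ => ?_
    refine sum_congr rfl fun χ _ => ?_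
    have : χ (-(μ : ZMod d)) = χ (-1) * χ (μ : ZMod d) := by
      rw [← map_mul]; congr 1; ring
    rw [this]
    ring
  rw [hexp] at hsum
  have hval : ∀ μ ∈ S, b μ * ((if (μ₀ : ZMod d) = μ then (d.totient : ℂ) else 0) -
        (if (μ₀ : ZMod d) = -μ then (d.totient : ℂ) else 0)) =
        if μ = μ₀ then b μ₀ * d.totient else 0 := by
    intro μ hμ
    rw [hS, mem_filter, mem_range] at hμ
    have h2 : ¬ (μ₀ : ZMod d) = -(μ : ZMod d) := by
      intro h3
      have h4 : ((μ₀ + μ : ℕ) : ZMod d) = 0 := by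
        push_cast
        rw [h3]; ring
      rw [ZMod.natCast_eq_zero_iff] at h4
      have h5 : μ₀ + μ = 0 := Nat.eq_zero_of_dvd_of_lt h4 (by omega)
      have h6 : μ₀ = 0 := by omega
      have := hμ₀'.2.1
      rw [h6, Nat.coprime_zero_left] at this
      omega
    rw [if_neg h2, sub_zero]
    by_cases h3 : μ = μ₀
    · subst h3
      simp
    · rw [if_neg h3, if_neg, mul_zero]
      intro h4
      apply h3
      have h5 := (ZMod.natCast_eq_natCast_iff' μ₀ μ d).mp h4
      rw [Nat.mod_eq_of_lt hμ.1, Nat.mod_eq_of_lt hμ₀'.1] at h5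
      exact h5.symm
  rw [sum_congr rfl hval, sum_ite_eq' S μ₀ (fun _ => b μ₀ * d.totient), if_pos hμ₀] at hsum
  have htot : (d.totient : ℂ) ≠ 0 := by
    have := Nat.totient_pos.mpr hd0
    exact_mod_cast this.ne'
  have := (mul_eq_zero.mp hsum).resolve_right htot
  exact this



/-- the statement in the form asked for -/
theorem cot_indep (e : ℕ) (he : 3 ≤ e) (l : ℕ → ℂ)
    (h : ∀ ζ : ℂ, IsPrimitiveRoot ζ e → ∑ b ∈ (Finset.Ico 1 ((e + 1) / 2)).filter
      (fun b => Nat.Coprime b e), l b * ((ζ ^ b + 1) / (ζ ^ b - 1)) = 0) :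
    ∀ b ∈ (Finset.Ico 1 ((e + 1) / 2)).filter (fun b => Nat.Coprime b e), l b = 0 := by
  have hS : (Finset.Ico 1 ((e + 1) / 2)).filter (fun b => Nat.Coprime b e) =
      (range e).filter (fun μ => μ.Coprime e ∧ 2 * μ < e) := by
    ext b
    simp only [mem_filter, mem_Ico, mem_range]
    constructor
    · rintro ⟨⟨h1, h2⟩, h3⟩
      exact ⟨by omega, h3, by omega⟩
    · rintro ⟨h1, h2, h3⟩
      have : b ≠ 0 := by
        rintro rfl
        rw [Nat.coprime_zero_left] at h2
        omega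
      exact ⟨⟨by omega, by omega⟩, h2⟩
  rw [hS] at h ⊢
  exact cot_indep' e he l h

end Pool.Agent.T9h85.SR
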