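import Pool.Agent.T9h59.SR.Tri

/-!
# (D2): products of translates of an odd function on a finite commutative group
-/

set_option autoImplicit false
set_option linter.unusedSectionVars false

namespace Pool.Agent.T9h85.SR

open Finset

theorem stD2 : Pool.Agent.T9h59.SR.StD2 := by
  classical
  intro G _ _ m F _ _ κ hm1 hm2 hG hodd hU
  have hexp : NeZero ((Monoid.exponent G : ℕ) : F) := ⟨fun h => hG (by
    obtain ⟨c, hc⟩ := Group.exponent_dvd_card (G := G)
    rw [hc, Nat.cast_mul, h, zero_mul])⟩
  have hcardX : Nat.card (G →* Fˣ) = Nat.card G :=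
    CommGroup.card_monoidHom_of_hasEnoughRootsOfUnity G F
  have hfin : Finite (G →* Fˣ) := Nat.finite_of_card_ne_zero (by rw [hcardX]; exact Nat.card_pos.ne')
  have := Fintype.ofFinite (G →* Fˣ)
  have hcard : Fintype.card (G →* Fˣ) = Fintype.card G := by
    rw [← Nat.card_eq_fintype_card, hcardX, Nat.card_eq_fintype_card]
  let e : (G →* Fˣ) → G → F := fun χ s => (χ s : F)
  have hli : LinearIndependent F e := by
    have h1 := linearIndependent_monoidHom G F
    have h2 := h1.comp (fun χ : G →* Fˣ => (Units.coeHom F).comp χ) (by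
      intro χ ψ h
      ext s
      exact DFunLike.congr_fun h s)
    exact h2
  have htop : Submodule.span F (Set.range e) = ⊤ := by
    apply hli.span_eq_top_of_card_eq_finrank'
    rw [hcard, Module.finrank_fintype_fun_eq_card]
  -- Fourier coefficients
  let c : (G →* Fˣ) → F := fun χ => ∑ b, ((χ b)⁻¹ : Fˣ) * κ b
  obtain ⟨a, ha⟩ := (Submodule.mem_span_range_iff_exists_fun F).1
    (show κ ∈ Submodule.span F (Set.range e) by rw [htop]; trivial)
  have hκ : ∀ s, κ s = ∑ χ, a χ * (χ s : F) := by
    intro s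
    rw [← ha]
    simp [e]
  have hca : ∀ ψ, c ψ = a ψ * (Fintype.card G : F) := by
    intro ψ
    have h1 : c ψ = ∑ χ, a χ * ∑ b, (((Units.coeHom F).comp (χ * ψ⁻¹)) b : F) := by
      simp only [c, hκ, mul_sum]
      rw [sum_comm]
      refine sum_congr rfl fun χ _ => sum_congr rfl fun b _ => ?_
      simp only [MonoidHom.comp_apply, Units.coeHom_apply, MonoidHom.mul_apply,
        MonoidHom.inv_apply, Units.val_mul]
      ring
    rw [h1, sum_eq_single ψ]
    · have h2 : ∀ b, (((Units.coeHom F).comp (ψ * ψ⁻¹)) b : F) = 1 := by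
        intro b
        simp only [MonoidHom.comp_apply, Units.coeHom_apply, MonoidHom.mul_apply,
          MonoidHom.inv_apply, mul_inv_cancel, Units.val_one]
      rw [sum_congr rfl fun b _ => h2 b, sum_const, card_univ, nsmul_eq_mul, mul_one]
    · intro χ _ hχ
      rw [sum_hom_units, if_neg, Nat.cast_zero, mul_zero]
      intro h
      apply hχ
      rw [← mul_inv_eq_one]
      ext s
      have := DFunLike.congr_fun h s
      simpa using this
    · intro h; exact absurd (mem_univ _) h
  -- the characters which occur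
  let Ω : Finset (G →* Fˣ) := univ.filter (fun χ => c χ ≠ 0)
  have hΩ : ∀ χ, χ ∈ Ω ↔ c χ ≠ 0 := fun χ => by simp [Ω]
  -- dimension of `U`
  have hdim : Module.finrank F (Submodule.span F (Set.range (fun b : G => fun s : G => κ (s * b))))
      ≤ Ω.card := by
    have h1 : Submodule.span F (Set.range (fun b : G => fun s : G => κ (s * b))) ≤
        Submodule.span F ((Ω.image e : Finset (G → F)) : Set (G → F)) := by
      rw [Submodule.span_le]
      rintro _ ⟨b, rfl⟩
      have h2 : (fun s : G => κ (s * b)) = ∑ χ, (a χ * (χ b : F)) • e χ := by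
        ext s
        rw [hκ, Finset.sum_apply]
        refine sum_congr rfl fun χ _ => ?_
        simp only [e, Pi.smul_apply, smul_eq_mul, map_mul, Units.val_mul]
        ring
      rw [SetLike.mem_coe]
      show (fun s : G => κ (s * b)) ∈ _
      rw [h2]
      refine Submodule.sum_mem _ fun χ _ => ?_
      by_cases h3 : χ ∈ Ω
      · exact Submodule.smul_mem _ _ (Submodule.subset_span (by
          rw [coe_image]; exact ⟨χ, h3, rfl⟩))
      · have h4 : a χ = 0 := by
          rw [hΩ, not_not, hca] at h3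
          exact (mul_eq_zero.1 h3).resolve_right hG
        rw [h4, zero_mul, zero_smul]
        exact Submodule.zero_mem _
    exact (Submodule.finrank_mono h1).trans ((finrank_span_finset_le_card _).trans card_image_le)
  have h4Ω : Fintype.card G < 4 * Ω.card := by omega
  -- parity
  have hsq : ∀ χ : G →* Fˣ, (χ m : F) = 1 ∨ (χ m : F) = -1 := by
    intro χ
    rw [← mul_self_eq_one_iff, ← Units.val_mul, ← map_mul, hm2, map_one, Units.val_one]
  have h2F : (1 : F) ≠ -1 := by
    intro h
    apply hG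
    have h1 : orderOf m = 2 := orderOf_eq_prime (by rw [pow_two, hm2]) hm1
    obtain ⟨k, hk⟩ := orderOf_dvd_card (x := m)
    rw [hk, h1, Nat.cast_mul]
    have h2 : ((2 : ℕ) : F) = 0 := by
      push_cast
      rw [← one_add_one_eq_two]
      nth_rewrite 1 [h]
      ring
    rw [h2, zero_mul]
  have hΩodd : ∀ χ ∈ Ω, (χ m : F) = -1 := by
    intro χ hχ
    rw [hΩ] at hχ
    rcases hsq χ with h | h
    · exfalso
      apply hχ
      have h1 : c χ = - c χ := by
        have h2 : c χ = ∑ b, ((χ (m * b))⁻¹ : Fˣ) * κ (m * b) :=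
          (Fintype.sum_equiv (Equiv.mulLeft m) _ _ fun b => rfl).symm
        have h3 : (χ m) = 1 := Units.ext h
        conv_lhs => rw [h2]
        simp only [c, hodd, map_mul, h3, one_mul, mul_neg, sum_neg_distrib]
      have h2 : (1 + 1 : F) * c χ = 0 := by linear_combination h1
      rcases mul_eq_zero.1 h2 with h3 | h3
      · exact absurd (eq_neg_of_add_eq_zero_left h3) h2F
      · exact h3
    · exact h
  let Ev : Finset (G →* Fˣ) := univ.filter (fun χ => (χ m : F) = 1)
  let Od : Finset (G →* Fˣ) := univ.filter (fun χ => ¬ (χ m : F) = 1)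
  have hEO : Ev.card + Od.card = Fintype.card G := by
    rw [← hcard, ← card_univ]
    exact card_filter_add_card_filter_not (s := (univ : Finset (G →* Fˣ))) (fun χ => (χ m : F) = 1)
  have hEv : ∀ χ, χ ∈ Ev ↔ (χ m : F) = 1 := fun χ => by simp [Ev]
  have hOd : ∀ χ, χ ∈ Od ↔ (χ m : F) = -1 := by
    intro χ
    simp only [Od, mem_filter, mem_univ, true_and]
    constructor
    · intro h; exact (hsq χ).resolve_left h
    · intro h h'; rw [h] at h'; exact h2F h'.symm
  obtain ⟨χ₀, hχ₀⟩ : Ω.Nonempty := by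
    rw [← card_pos]
    have : 0 < Fintype.card G := Fintype.card_pos
    omega
  have hχ₀m := hΩodd χ₀ hχ₀
  have hmulinj : ∀ χ : G →* Fˣ, Function.Injective (fun ψ => ψ * χ) := fun χ ψ ψ' h =>
    mul_right_cancel h
  have hE_le : Ev.card ≤ Od.card := by
    apply card_le_card_of_injOn (fun ψ => ψ * χ₀) _ (hmulinj χ₀).injOn
    intro ψ hψ
    rw [mem_coe, hEv] at hψ
    rw [mem_coe, hOd, MonoidHom.mul_apply, Units.val_mul, hψ, hχ₀m, one_mul]
  have hO_le : Od.card ≤ Ev.card := by
    apply card_le_card_of_injOn (fun ψ => ψ * χ₀) _ (hmulinj χ₀).injOn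
    intro ψ hψ
    rw [mem_coe, hOd] at hψ
    rw [mem_coe, hEv, MonoidHom.mul_apply, Units.val_mul, hψ, hχ₀m]
    ring
  -- every even character is a product
  have hprod : ∀ ψ ∈ Ev, ∃ χ ∈ Ω, ∃ χ' ∈ Ω, ψ = χ * χ' := by
    intro ψ hψ
    rw [hEv] at hψ
    by_contra hno
    push Not at hno
    have hdisj : Disjoint Ω (Ω.image (fun χ => ψ * χ⁻¹)) := by
      rw [disjoint_left]
      intro χ h1 h2
      obtain ⟨χ', h3, h4⟩ := mem_image.1 h2
      apply hno χ h1 χ' h3
      rw [← h4]
      exact (inv_mul_cancel_right ψ χ').symm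
    have hsub : Ω ∪ Ω.image (fun χ => ψ * χ⁻¹) ⊆ Od := by
      intro χ hχ
      rw [hOd]
      rcases mem_union.1 hχ with h | h
      · exact hΩodd χ h
      · obtain ⟨χ', h3, rfl⟩ := mem_image.1 h
        rw [MonoidHom.mul_apply, MonoidHom.inv_apply, Units.val_mul, Units.val_inv_eq_inv_val,
          hψ, hΩodd χ' h3]
        norm_num
    have h1 := card_le_card hsub
    rw [card_union_of_disjoint hdisj, card_image_of_injective _ (by
      intro χ χ' h
      exact inv_injective (mul_left_cancel h))] at h1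
    omega
  -- the even characters lie in `W`
  have hW : ∀ ψ ∈ Ev, e ψ ∈ Submodule.span F
      (Set.range (fun x : G × G => fun s : G => κ (s * x.1) * κ (s * x.2))) := by
    intro ψ hψ
    obtain ⟨χ, hχ, χ', hχ', rfl⟩ := hprod ψ hψ
    rw [hΩ] at hχ hχ'
    have hval : ∀ (χ : G →* Fˣ), c χ ≠ 0 → ∀ s, (χ s : F) =
        ∑ b, ((c χ)⁻¹ * ((χ b)⁻¹ : Fˣ)) * κ (s * b) := by
      intro χ hχ s
      have h1 : c χ = ∑ b, ((χ (s * b))⁻¹ : Fˣ) * κ (s * b) :=
        (Fintype.sum_equiv (Equiv.mulLeft s) _ _ fun b => rfl).symm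
      have h2 : (χ s : F) * c χ = ∑ b, ((χ b)⁻¹ : Fˣ) * κ (s * b) := by
        rw [h1, mul_sum]
        refine sum_congr rfl fun b _ => ?_
        rw [map_mul, mul_inv, Units.val_mul, ← mul_assoc, ← mul_assoc, ← Units.val_mul,
          mul_inv_cancel, Units.val_one, one_mul]
      have h3 : (χ s : F) = (c χ)⁻¹ * ((χ s : F) * c χ) := by
        field_simp
      rw [h3, h2, mul_sum]
      refine sum_congr rfl fun b _ => ?_
      ring
    have h1 : e (χ * χ') = ∑ x : G × G, (((c χ)⁻¹ * ((χ x.1)⁻¹ : Fˣ)) *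
        ((c χ')⁻¹ * ((χ' x.2)⁻¹ : Fˣ))) • (fun s : G => κ (s * x.1) * κ (s * x.2)) := by
      ext s
      show ((χ s * χ' s : Fˣ) : F) = _
      rw [Units.val_mul, hval χ hχ s, hval χ' hχ' s, sum_mul_sum, ← sum_product',
        Finset.sum_apply]
      refine sum_congr rfl fun x _ => ?_
      simp only [Pi.smul_apply, smul_eq_mul]
      ring
    rw [h1]
    exact Submodule.sum_mem _ fun x _ => Submodule.smul_mem _ _ (Submodule.subset_span ⟨x, rfl⟩)
  have hfinal : Ev.card ≤ Module.finrank F (Submodule.span F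
      (Set.range (fun x : G × G => fun s : G => κ (s * x.1) * κ (s * x.2)))) := by
    let v : Ev → Submodule.span F
      (Set.range (fun x : G × G => fun s : G => κ (s * x.1) * κ (s * x.2))) :=
      fun ψ => ⟨e ψ.1, hW ψ.1 ψ.2⟩
    have h1 : LinearIndependent F v := by
      apply LinearIndependent.of_comp (Submodule.subtype _)
      exact hli.comp (fun ψ : Ev => ψ.1) Subtype.val_injective
    have h2 := h1.fintype_card_le_finrank
    rwa [Fintype.card_coe] at h2
  omega

end Pool.Agent.T9h85.SR
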